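import Mathlib
import Pool.Agent.J4H26.KP.Supr
import Pool.Agent.J4H39.KP.N4

set_option autoImplicit false

/-! Project KP, piece (R1): groups in intervals far from each other stay apart, by guards. -/

namespace Pool.Agent.J4H57.KP

open Finset Filter Real
open Pool.Agent.J4H39.KP (cw_proj)
open Pool.Agent.J4H26.AF (moves)
open Pool.Agent.J4H26.KT (cw cw_succ mpos)
open Pool.Agent.J4H26.KP (SepG sepI injI S_APART S_SEPR)

/-- coalescing walks keep the weak order (as `cw_ord` of helper18) -/
theorem cw_order {K : ℕ} {f g : (Fin K → ℤ) → ℝ} (s : ℕ) : ∀ z : Fin K → ℤ,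
    (∀ u : Fin K → ℤ, (∀ i j, z i ≤ z j → u i ≤ u j) → f u ≤ g u) → cw f s z ≤ cw g s z := by
  induction s with
  | zero => intro z h; exact h z (fun i j hij => hij)
  | succ s ih =>
    intro z h
    rw [cw_succ, cw_succ]
    refine div_le_div_of_nonneg_right (sum_le_sum fun p hp => ih _ (fun u hu => h u (fun i j hij => ?_))) (mpos z).le
    apply hu
    unfold moves at hp
    rw [mem_filter] at hp
    rcases hij.lt_or_eq with h2 | h2
    · have h3 := (p i).isLt
      omega
    · rw [h2, hp.2 i j h2]

/-- with guards -/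
theorem guards {K r k : ℕ} (γ : Fin K → Fin r) (lo hi : Fin r → ℤ) (z : Fin K → ℤ) (d : ℤ) (hd : 0 ≤ d)
    (hz : ∀ i, lo (γ i) ≤ z i ∧ z i ≤ hi (γ i)) (hl : ∀ l l' : Fin r, l < l' → hi l + d ≤ lo l' - d) :
    cw (injI (m := r + r)) k (Fin.append (fun l => hi l + d) (fun l => lo l - d)) ≤ cw (sepI γ) k z := by
  obtain ⟨w, hw⟩ : ∃ w : Fin (r + r) → ℤ, w = Fin.append (fun l => hi l + d) (fun l => lo l - d) := ⟨_, rfl⟩
  have e1 : cw (injI (m := r + r)) k w =
      cw (fun u : Fin (K + (r + r)) → ℤ => injI (m := r + r) (fun l => u (Fin.natAdd K l))) k (Fin.append z w) := by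
    rw [cw_proj (Fin.natAdd K) (injI (m := r + r)) k (Fin.append z w)]
    congr 1
    funext l
    rw [Fin.append_right]
  have e2 : cw (sepI γ) k z =
      cw (fun u : Fin (K + (r + r)) → ℤ => sepI γ (fun l => u (Fin.castAdd (r + r) l))) k (Fin.append z w) := by
    rw [cw_proj (Fin.castAdd (r + r)) (sepI γ) k (Fin.append z w)]
    congr 1
    funext l
    rw [Fin.append_left]
  rw [← hw, e1, e2]
  apply cw_order
  intro u hu
  unfold injI sepI
  by_cases hinj : Function.Injective (fun l => u (Fin.natAdd K l))
  · rw [if_pos hinj, if_pos]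
    have key : ∀ i j : Fin K, γ i < γ j → u (Fin.castAdd (r + r) i) ≠ u (Fin.castAdd (r + r) j) := by
      intro i j hij he
      have h1 : u (Fin.castAdd (r + r) i) ≤ u (Fin.natAdd K (Fin.castAdd r (γ i))) := by
        apply hu
        rw [Fin.append_left, Fin.append_right, hw, Fin.append_left]
        have := (hz i).2
        omega
      have h2 : u (Fin.natAdd K (Fin.castAdd r (γ i))) ≤ u (Fin.natAdd K (Fin.natAdd r (γ j))) := by
        apply hu
        rw [Fin.append_right, Fin.append_right, hw, Fin.append_left, Fin.append_right]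
        exact hl _ _ hij
      have h3 : u (Fin.natAdd K (Fin.natAdd r (γ j))) ≤ u (Fin.castAdd (r + r) j) := by
        apply hu
        rw [Fin.append_left, Fin.append_right, hw, Fin.append_right]
        have := (hz j).1
        omega
      have h4 : u (Fin.natAdd K (Fin.castAdd r (γ i))) = u (Fin.natAdd K (Fin.natAdd r (γ j))) := by omega
      have h5 := congrArg (Fin.val) (hinj h4)
      simp only [Fin.val_castAdd, Fin.val_natAdd] at h5
      have := (γ i).isLt
      omega
    intro i j hij
    rcases lt_or_gt_of_ne hij with h | h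
    · exact key i j h
    · exact (key j i h).symm
  · rw [if_neg hinj]
    split_ifs <;> norm_num

/-- (R1) -/
theorem t_SEPR : S_APART → S_SEPR := by
  intro hA r g hg
  obtain ⟨c, hc, hk⟩ := hA (r + r) (g / 4) (by positivity)
  refine ⟨c, hc, ?_⟩
  have hsq : Tendsto (fun t : ℕ => √ (t : ℝ)) atTop atTop := Real.tendsto_sqrt_atTop.comp tendsto_natCast_atTop_atTop
  filter_upwards [hk, hsq.eventually_ge_atTop (8 / g)] with k hk hk2
  intro K γ lo hi hlh hlo z hz
  rw [div_le_iff₀ hg] at hk2
  obtain ⟨d, hd⟩ : ∃ d : ℤ, d = ⌈g * √ (k : ℝ) / 8⌉ := ⟨_, rfl⟩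
  have hd1 : g * √ (k : ℝ) / 8 ≤ d := by rw [hd]; exact Int.le_ceil _
  have hd2 : (d : ℝ) < g * √ (k : ℝ) / 8 + 1 := by rw [hd]; exact Int.ceil_lt_add_one _
  have hgk : 8 ≤ g * √ (k : ℝ) := by linarith
  have hd0 : 0 ≤ d := by
    have : (0 : ℝ) ≤ d := by linarith
    exact_mod_cast this
  have hl : ∀ l l' : Fin r, l < l' → hi l + d ≤ lo l' - d := by
    intro l l' h
    have h1 := hlh l l' h
    have : ((hi l + d : ℤ) : ℝ) ≤ ((lo l' - d : ℤ) : ℝ) := by push_cast; linarith
    exact_mod_cast this
  refine le_trans (hk _ ?_) (guards γ lo hi z d hd0 hz hl)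
  have hloR : ∀ l, (lo l : ℝ) ≤ hi l := fun l => by exact_mod_cast hlo l
  have a1 : ∀ l l' : Fin r, l < l' → (hi l : ℝ) + d + g / 4 * √ (k : ℝ) ≤ hi l' + d := by
    intro l l' h
    have h1 := hlh l l' h
    have h2 := hloR l'
    linarith
  have a2 : ∀ l l' : Fin r, l < l' → (lo l : ℝ) - d + g / 4 * √ (k : ℝ) ≤ lo l' - d := by
    intro l l' h
    have h1 := hlh l l' h
    have h2 := hloR l
    linarith
  have a3 : ∀ l l' : Fin r, g / 4 * √ (k : ℝ) ≤ |((hi l : ℝ) + d) - (lo l' - d)| := by
    intro l l'
    rcases lt_or_ge l l' with h | h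
    · have h1 := hlh l l' h
      rw [abs_sub_comm]
      exact le_trans (by linarith) (le_abs_self _)
    · have h1 : (lo l' : ℝ) ≤ hi l := by
        rcases h.lt_or_eq with h | h
        · have h1 := hlh l' l h
          have h2 := hloR l
          have h3 := hloR l'
          linarith
        · rw [h]; exact hloR l
      exact le_trans (by linarith) (le_abs_self _)
  intro i j hij
  induction i using Fin.addCases with
  | left i =>
    induction j using Fin.addCases with
    | left j =>
      rw [Fin.append_left, Fin.append_left]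
      push_cast
      have hij' : i ≠ j := fun h => hij (by rw [h])
      rcases lt_or_gt_of_ne hij' with h | h
      · have := a1 i j h
        rw [abs_sub_comm]
        exact le_trans (by linarith) (le_abs_self _)
      · have := a1 j i h
        exact le_trans (by linarith) (le_abs_self _)
    | right j =>
      rw [Fin.append_left, Fin.append_right]
      push_cast
      exact a3 i j
  | right i =>
    induction j using Fin.addCases with
    | left j =>
      rw [Fin.append_left, Fin.append_right, abs_sub_comm]
      push_cast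
      exact a3 j i
    | right j =>
      rw [Fin.append_right, Fin.append_right]
      push_cast
      have hij' : i ≠ j := fun h => hij (by rw [h])
      rcases lt_or_gt_of_ne hij' with h | h
      · have := a2 i j h
        rw [abs_sub_comm]
        exact le_trans (by linarith) (le_abs_self _)
      · have := a2 j i h
        exact le_trans (by linarith) (le_abs_self _)

end Pool.Agent.J4H57.KP
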